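import Pool.Agent.Helper49.NF.Goals

/-!
# NF, packet R2
-/

set_option autoImplicit false

namespace Pool.Agent.Helper8.NF

open Finset
open Pool.Agent.Helper49.NF
open Pool.Agent.Helper47.SR (Grp mv lev wt Ew W IsInv up dn StarAt HalfStarAt)

theorem card_le_W {n : ℕ} (G : Grp n) (S : Finset (Finset (Fin n))) : #S ≤ W G S := by
  unfold W
  calc #S = ∑ A ∈ S, 1 := by simp
    _ ≤ ∑ A ∈ S, (1 + wt G A) := Finset.sum_le_sum fun A _ => Nat.le_add_right _ _

theorem goal_R2 (hNSB : Goal_NSB) (hRED : Goal_RED) (hCLS : Goal_CLS) (hN2S : Goal_N2S)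
    (hN2J : Goal_N2J) (hN2I : Goal_N2I) (hN2H : Goal_N2H) : Goal_R2 := by
  obtain ⟨n1, h1⟩ := hN2S
  obtain ⟨n2, h2⟩ := hN2J
  obtain ⟨n3, h3⟩ := hN2I
  obtain ⟨n4, h4⟩ := hN2H
  refine ⟨n1 + n2 + n3 + n4 + 100, ?_⟩
  intro n hn K f G hG hK hf m hm hm2
  have hK1 := hG.K1
  have hm1 : 1 ≤ m := by
    rcases Nat.eq_zero_or_pos m with h | h
    · subst h
      simp at hm
    · exact h
  have hmn : 2 * (m + 1) ≤ n := by omega
  obtain ⟨hB, hE1, hE2⟩ := hNSB n K f G hG m hm1 hmn
  have hL : 1 ≤ Lg n := by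
    unfold Lg
    exact Nat.clog_pos (by norm_num) (by omega)
  apply hRED n K f m G hG hm1 hmn
  · calc n * Ew G (lev n m) ≤ n * Bb n K f m 2 := Nat.mul_le_mul_left _ hE1
      _ ≤ 2 * n.choose m := h4 n (by omega) m K f hm hmn hK1 hK hf
  · intro S Y hF _ hW hT
    have hTT : TT G m ≤ (n + 1) * Bb n K f m 2 := by
      unfold TT
      calc (m + 1) * Ew G (lev n (m + 1)) + (n - m) * Ew G (lev n m)
          ≤ (m + 1) * Bb n K f m 2 + (n - m) * Bb n K f m 2 :=
            Nat.add_le_add (Nat.mul_le_mul_left _ hE2) (Nat.mul_le_mul_left _ hE1)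
        _ = (m + 1 + (n - m)) * Bb n K f m 2 := by ring
        _ = (n + 1) * Bb n K f m 2 := by
            congr 1
            omega
    have hex : ∃ s, 2 ≤ s ∧ 128 * (n + 1) * Bb n K f m (s + 1) ≤ W G S := by
      refine ⟨8 * Lg n - 1, by omega, ?_⟩
      have e : 8 * Lg n - 1 + 1 = 8 * Lg n := by omega
      rw [e]
      have h5 := h1 n (by omega) m K f hm hmn hK1 hK hf
      have h6 : K * n * (128 * (n + 1) * Bb n K f m (8 * Lg n)) < K * n * W G S :=
        lt_of_le_of_lt h5 hW
      exact (Nat.lt_of_mul_lt_mul_left h6).le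
    classical
    let s := Nat.find hex
    obtain ⟨hs2, hsW⟩ : 2 ≤ s ∧ 128 * (n + 1) * Bb n K f m (s + 1) ≤ W G S := Nat.find_spec hex
    have hs8 : s < 8 * Lg n := by
      have h7 : s ≤ 8 * Lg n - 1 := by
        apply Nat.find_min'
        refine ⟨by omega, ?_⟩
        have e : 8 * Lg n - 1 + 1 = 8 * Lg n := by omega
        rw [e]
        have h5 := h1 n (by omega) m K f hm hmn hK1 hK hf
        have h6 : K * n * (128 * (n + 1) * Bb n K f m (8 * Lg n)) < K * n * W G S :=
          lt_of_le_of_lt h5 hW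
        exact (Nat.lt_of_mul_lt_mul_left h6).le
      omega
    have hWs : W G S < 128 * (n + 1) * Bb n K f m s := by
      rcases Nat.lt_or_ge 2 s with h | h
      · have h8 := Nat.find_min hex (m := s - 1) (by omega : s - 1 < s)
        have e : s - 1 + 1 = s := by omega
        rw [e] at h8
        by_contra hcon
        exact h8 ⟨by omega, by omega⟩
      · have e : s = 2 := le_antisymm h hs2
        rw [e]
        calc W G S < 2 * TT G m := hT
          _ ≤ 2 * ((n + 1) * Bb n K f m 2) := Nat.mul_le_mul_left _ hTT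
          _ ≤ 128 * (n + 1) * Bb n K f m 2 := by
              rw [mul_assoc]
              exact Nat.mul_le_mul_right _ (by norm_num)
    obtain ⟨j, hj1, hj2⟩ := h2 n (by omega) m K f s hm hm2 hK1 hK hf hs2 hs8
    have hi1 := h3 n (by omega) m K f s hm hm2 hK1 hK hf hs2 hs8
    set i := n / (2 * s) with hi
    have hBs := hB (s + 1) (by omega)
    have hsi : 2 * (s * i) ≤ n := by
      have := Nat.mul_div_le n (2 * s)
      rw [← hi] at this
      calc 2 * (s * i) = 2 * s * i := by ring
        _ ≤ n := this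
    have h64 : 64 * Bb n K f m (s + 1) ≤ W G S := by
      refine le_trans ?_ hsW
      exact Nat.mul_le_mul_right _ (by omega)
    set a := s * (j + 1) with ha
    set b := s * i with hb
    obtain ⟨c, hc⟩ : ∃ c, n - m = c := ⟨_, rfl⟩
    have hcn : n = m + c := by omega
    apply hCLS n m s i j G S Y hm1 hmn (by omega) hF
    · exact ((card_le_W G S).trans hWs.le).trans hj1
    · exact ((card_le_W G Y).trans (hF.lt.le.trans hWs.le)).trans hi1
    · exact (Nat.mul_le_mul_left _ hBs.1).trans h64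
    · exact (Nat.mul_le_mul_left _ hBs.2).trans h64
    · rw [hc, ← ha, ← hb]
      have e1 : 100 * a ≤ 101 * m := hj2
      have e2 : 2 * b ≤ m + c := by omega
      have e3 : 53 * m ≤ 47 * c := by omega
      -- 100 * LHS
      have e4 : 100 * a * (64 * b + (m + 1)) ≤ 101 * m * (64 * b + (m + 1)) :=
        Nat.mul_le_mul_right _ e1
      have e5 : 101 * m * (64 * b + (m + 1)) ≤ 101 * m * (32 * (m + c) + (m + 1)) :=
        Nat.mul_le_mul_left _ (by omega)
      have e6 : 101 * m * (32 * (m + c) + (m + 1)) ≤ 6300 * (c * (m + 1)) := by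
        have e7 : 101 * m * (32 * (m + c) + (m + 1)) ≤ (m + 1) * (3232 * (m + c) + 101 * m) := by
          nlinarith
        have e8 : 3232 * (m + c) + 101 * m ≤ 6300 * c := by omega
        calc _ ≤ (m + 1) * (3232 * (m + c) + 101 * m) := e7
          _ ≤ (m + 1) * (6300 * c) := Nat.mul_le_mul_left _ e8
          _ = 6300 * (c * (m + 1)) := by ring
      have e9 : 100 * (64 * (a * b) + a * (m + 1)) ≤ 100 * (63 * (c * (m + 1))) := by
        calc 100 * (64 * (a * b) + a * (m + 1)) = 100 * a * (64 * b + (m + 1)) := by ring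
          _ ≤ 6300 * (c * (m + 1)) := e4.trans (e5.trans e6)
          _ = 100 * (63 * (c * (m + 1))) := by ring
      exact Nat.le_of_mul_le_mul_left e9 (by norm_num)
    · rw [hc, ← ha]
      have e1 : 100 * a ≤ 101 * m := hj2
      have e3 : 53 * m ≤ 47 * c := by omega
      have e4 : 65 * a ≤ 63 * c := by omega
      calc 65 * (a * (m + 1)) = 65 * a * (m + 1) := by ring
        _ ≤ 63 * c * (m + 1) := Nat.mul_le_mul_right _ e4
        _ = 63 * (c * (m + 1)) := by ring

end Pool.Agent.Helper8.NF
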